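import Pool.Agent.helper52.IR.SpecB

/-!
# Row ir:MEN (the mean entropy; pure)
-/

set_option autoImplicit false

open MeasureTheory Filter Set

namespace Pool.Agent.IR

theorem MEN_lin (a y c d : ℝ) (hy : y ≤ 1) (hay : a ≤ y) :
    ∫ t in Ioo a 1, (if t < y then c + d * t else 0) = c * (y - a) + d * (y ^ 2 - a ^ 2) / 2 := by
  have h1 : ∀ t : ℝ, (if t < y then c + d * t else 0) = (Iio y).indicator (fun t => c + d * t) t := by
    intro t
    simp only [Set.indicator_apply, mem_Iio]
  simp only [h1]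
  rw [setIntegral_indicator measurableSet_Iio]
  have h2 : Ioo a 1 ∩ Iio y = Ioo a y := by
    ext t
    simp only [mem_inter_iff, mem_Ioo, mem_Iio]
    constructor
    · rintro ⟨⟨h3, -⟩, h4⟩
      exact ⟨h3, h4⟩
    · rintro ⟨h3, h4⟩
      exact ⟨⟨h3, h4.trans_le hy⟩, h4⟩
  rw [h2, ← integral_Ioc_eq_integral_Ioo, ← intervalIntegral.integral_of_le hay,
    intervalIntegral.integral_add intervalIntegrable_const (by
      apply Continuous.intervalIntegrable
      fun_prop), intervalIntegral.integral_const, intervalIntegral.integral_const_mul, integral_id, smul_eq_mul]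
  ring

theorem MEN_zero (a y : ℝ) (hya : y ≤ a) (w : ℝ → ℝ) : ∫ t in Ioo a 1, (if t < y then w t else 0) = 0 := by
  have h : ∫ t in Ioo a 1, (if t < y then w t else 0) = ∫ t in Ioo a 1, (0 : ℝ) := by
    apply setIntegral_congr_fun measurableSet_Ioo
    intro t ht
    exact if_neg (not_lt.2 (hya.trans ht.1.le))
  rw [h]
  simp

theorem MEN_fub {X : Type} [MeasurableSpace X] (μ : Measure X) (f : X → ℝ) [IsProbabilityMeasure μ] (hf : Measurable f)
    (a : ℝ) (w : ℝ → ℝ) (hw : Measurable w) (K : ℝ) (hK : ∀ t, a < t → t < 1 → |w t| ≤ K) :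
    ∫ x, (∫ t in Ioo a 1, (if t < f x then w t else 0)) ∂μ = ∫ t in Ioo a 1, μ.real {x | t < f x} * w t := by
  have hint : Integrable (Function.uncurry fun (x : X) (t : ℝ) => (if t < f x then w t else 0))
      (μ.prod (volume.restrict (Ioo a 1))) := by
    have hm : Measurable (Function.uncurry fun (x : X) (t : ℝ) => (if t < f x then w t else 0)) := by
      apply Measurable.ite
      · exact measurableSet_lt measurable_snd (hf.comp measurable_fst)
      · exact hw.comp measurable_snd
      · exact measurable_const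
    refine Integrable.of_bound hm.aestronglyMeasurable (max K 0) ?_
    have h1 : ∀ᵐ p : X × ℝ ∂(μ.prod (volume.restrict (Ioo a 1))), p.2 ∈ Ioo a 1 := by
      have h2 : ∀ᵐ t ∂(volume.restrict (Ioo a 1)), t ∈ Ioo a 1 := ae_restrict_mem measurableSet_Ioo
      exact Measure.quasiMeasurePreserving_snd.ae h2
    filter_upwards [h1] with p hp
    show ‖(if p.2 < f p.1 then w p.2 else 0)‖ ≤ _
    split_ifs
    · exact (hK _ hp.1 hp.2).trans (le_max_left _ _)
    · rw [norm_zero]
      exact le_max_right _ _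
  rw [integral_integral_swap hint]
  apply integral_congr_ae
  filter_upwards with t
  have h1 : ∀ x, (if t < f x then w t else 0) = ({x | t < f x}).indicator (fun _ => w t) x := by
    intro x
    simp only [Set.indicator_apply, mem_ofPred_eq]
  simp only [h1]
  rw [integral_indicator_const _ (measurableSet_lt measurable_const hf), smul_eq_mul]

theorem MEN_proof : MEN_stmt := by
  intro X _ μ f _ hf hf01 hH
  obtain ⟨G, hG⟩ : ∃ G : ℝ → ℝ, G = fun t => μ.real {x | t < f x} := ⟨_, rfl⟩
  have hG0 : ∀ t, 0 ≤ G t := fun t => by rw [hG]; exact measureReal_nonneg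
  have hG1 : ∀ t, G t ≤ 1 := fun t => by rw [hG]; exact measureReal_le_one
  have hGa : Antitone G := by
    intro s t hst
    rw [hG]
    exact measureReal_mono fun x hx => hst.trans_lt hx
  have hGm : Measurable G := hGa.measurable
  have hGF : ∀ t, μ.real {x | f x ≤ t} = 1 - G t := by
    intro t
    have h1 : {x | f x ≤ t} = {x | t < f x}ᶜ := by
      ext x
      simp
    rw [h1, probReal_compl_eq_one_sub (measurableSet_lt measurable_const hf), hG]
  obtain ⟨R, hR⟩ : ∃ R : ℝ → ℝ, R = fun h => (1 - h) * (1 + (2 * h - 1) / 200) := ⟨_, rfl⟩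
  have hRd : ∀ t, HasDerivAt R (-((197 + 4 * t) / 200)) t := by
    intro t
    rw [hR]
    have h1 : HasDerivAt (fun h : ℝ => (1 - h)) (-1) t := by
      simpa using (hasDerivAt_id t).const_sub 1
    have h2 : HasDerivAt (fun h : ℝ => 1 + (2 * h - 1) / 200) (2 / 200) t := by
      have h3 := ((((hasDerivAt_id t).const_mul 2).sub_const 1).div_const 200).const_add 1
      simpa using h3
    have h3 := h1.mul h2
    have h4 : -((197 + 4 * t) / 200) = -1 * (1 + (2 * t - 1) / 200) + (1 - t) * (2 / 200) := by ring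
    rw [h4]
    exact h3
  have hRm : Measurable R := by rw [hR]; fun_prop
  have hRa : ∀ s t : ℝ, 1 / 2 < s → s < t → R t < R s := by
    intro s t hs hst
    rw [hR]
    simp only
    nlinarith
  have hRi : InjOn R (Ioo (1 / 2) 1) := by
    intro s hs t ht hst
    rcases lt_trichotomy s t with h | h | h
    · exact absurd hst (hRa s t hs.1 h).ne'
    · exact h
    · exact absurd hst (hRa t s ht.1 h).ne
  have hRimg : R '' Ioo (1 / 2) 1 ⊆ Ioo 0 (1 / 2) := by
    rintro _ ⟨t, ht, rfl⟩
    rw [hR]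
    simp only
    have h1 : 0 < 1 - t := by linarith [ht.2]
    have h2 : 0 < 1 + (2 * t - 1) / 200 := by linarith [ht.1]
    constructor
    · exact mul_pos h1 h2
    · nlinarith [ht.1, ht.2]
  have hbd : ∀ (s : Set ℝ) (u : ℝ → ℝ) (K : ℝ), MeasurableSet s → volume s ≠ ⊤ → Measurable u → (∀ t ∈ s, |u t| ≤ K) → IntegrableOn u s := by
    intro s u K hs hs' hu hK
    have : IsFiniteMeasure (volume.restrict s) := ⟨by
      rw [Measure.restrict_apply_univ]
      exact hs'.lt_top⟩
    refine Integrable.of_bound hu.aestronglyMeasurable K ?_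
    filter_upwards [ae_restrict_mem hs] with t ht
    exact hK t ht
  have hI1 : IntegrableOn G (Ioo 0 1) := hbd _ _ 1 measurableSet_Ioo (by simp) hGm fun t _ => by
    rw [abs_of_nonneg (hG0 t)]; exact hG1 t
  -- the mean of f
  have e1 : ∫ x, f x ∂μ = ∫ t in Ioo 0 1, G t := by
    have h1 := MEN_fub μ f hf 0 (fun _ => 1) measurable_const 1 (fun _ _ _ => by simp)
    have h2 : ∀ x, ∫ t in Ioo (0 : ℝ) 1, (if t < f x then (1 : ℝ) else 0) = f x := by
      intro x
      have h3 := MEN_lin 0 (f x) 1 0 (hf01 x).2 (hf01 x).1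
      simp only [zero_mul, add_zero, zero_div, one_mul, sub_zero] at h3
      exact h3
    simp only [h2, mul_one] at h1
    rw [h1, hG]
  have e2 : ∫ x, 1 / 200 * max 0 ((2 * f x - 1) * (1 - f x)) ∂μ = ∫ t in Ioo (1 / 2) 1, G t * ((3 - 4 * t) / 200) := by
    have h1 := MEN_fub μ f hf (1 / 2) (fun t => 3 / 200 + -(4 / 200) * t) (by fun_prop) 1 (fun t h3 h4 => by
      rw [abs_le]
      constructor <;> linarith)
    have h2 : ∀ x, ∫ t in Ioo (1 / 2 : ℝ) 1, (if t < f x then (3 / 200 + -(4 / 200) * t : ℝ) else 0) = 1 / 200 * max 0 ((2 * f x - 1) * (1 - f x)) := by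
      intro x
      obtain ⟨h3, h4⟩ := hf01 x
      rcases le_total (f x) (1 / 2) with h5 | h5
      · rw [MEN_zero (1 / 2) (f x) h5, max_eq_left (by nlinarith), mul_zero]
      · rw [MEN_lin (1 / 2) (f x) _ _ h4 h5, max_eq_right (by nlinarith)]
        ring
    simp only [h2] at h1
    rw [h1, hG]
    apply integral_congr_ae
    filter_upwards with t
    ring
  have e3 : ∫ t in Ioo (1 / 2 : ℝ) 1, (197 + 4 * t) / 200 = 1 / 2 := by
    have h1 := MEN_lin (1 / 2) 1 (197 / 200) (4 / 200) le_rfl (by norm_num)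
    have h2 : ∫ t in Ioo (1 / 2 : ℝ) 1, (if t < 1 then (197 / 200 + 4 / 200 * t : ℝ) else 0) = ∫ t in Ioo (1 / 2 : ℝ) 1, (197 + 4 * t) / 200 := by
      apply setIntegral_congr_fun measurableSet_Ioo
      intro t ht
      show (if t < 1 then (197 / 200 + 4 / 200 * t : ℝ) else 0) = (197 + 4 * t) / 200
      rw [if_pos ht.2]
      ring
    rw [← h2, h1]
    norm_num
  -- the substitution
  have e4 : ∫ t in Ioo (1 / 2 : ℝ) 1, (197 + 4 * t) / 200 * (1 - G t) ≤ ∫ t in Ioo (0 : ℝ) (1 / 2), G t := by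
    have h1 := integral_image_eq_integral_abs_deriv_smul measurableSet_Ioo
      (fun t _ => (hRd t).hasDerivWithinAt) hRi G
    have h2 : ∫ t in R '' Ioo (1 / 2) 1, G t ≤ ∫ t in Ioo (0 : ℝ) (1 / 2), G t := by
      apply setIntegral_mono_set
      · exact hI1.mono_set (Ioo_subset_Ioo_right (by norm_num))
      · filter_upwards with t
        exact hG0 t
      · exact hRimg.eventuallyLE
    refine le_trans ?_ h2
    rw [h1]
    apply setIntegral_mono_on
    · refine hbd _ _ 2 measurableSet_Ioo (by simp) (by fun_prop) fun t ht => ?_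
      have h3 : 0 ≤ (197 + 4 * t) / 200 := by linarith [ht.1]
      have h4 : 0 ≤ 1 - G t := by linarith [hG1 t]
      rw [abs_mul, abs_of_nonneg h3, abs_of_nonneg h4]
      have h5 : (197 + 4 * t) / 200 ≤ 2 := by linarith [ht.2]
      have h6 : 1 - G t ≤ 1 := by linarith [hG0 t]
      calc (197 + 4 * t) / 200 * (1 - G t) ≤ 2 * 1 := mul_le_mul h5 h6 h4 (by norm_num)
        _ = 2 := by norm_num
    · refine hbd _ _ 2 measurableSet_Ioo (by simp) ?_ fun t ht => ?_
      · simp only [smul_eq_mul]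
        have h3 : Measurable fun t : ℝ => G (R t) := hGm.comp hRm
        fun_prop
      · have h3 : 0 ≤ (197 + 4 * t) / 200 := by linarith [ht.1]
        rw [smul_eq_mul, abs_neg, abs_mul, abs_abs, abs_of_nonneg h3, abs_of_nonneg (hG0 _)]
        have h5 : (197 + 4 * t) / 200 ≤ 2 := by linarith [ht.2]
        calc (197 + 4 * t) / 200 * G (R t) ≤ 2 * 1 := mul_le_mul h5 (hG1 _) (hG0 _) (by norm_num)
          _ = 2 := by norm_num
    · exact measurableSet_Ioo
    · intro t ht
      have h3 : 0 ≤ (197 + 4 * t) / 200 := by linarith [ht.1]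
      rw [smul_eq_mul, abs_neg, abs_of_nonneg h3]
      apply mul_le_mul_of_nonneg_left _ h3
      have h4 := hH t ht.1 ht.2
      rw [hGF, hGF] at h4
      have h5 : R t = (1 - t) * (1 + (2 * t - 1) / 200) := by rw [hR]
      rw [← h5] at h4
      linarith
  have e5 : (∫ t in Ioo (0 : ℝ) (1 / 2), G t) + (∫ t in Ioo (1 / 2 : ℝ) 1, G t) ≤ ∫ t in Ioo (0 : ℝ) 1, G t := by
    have hd : Disjoint (Ioo (0 : ℝ) (1 / 2)) (Ioo (1 / 2 : ℝ) 1) := by
      rw [Set.disjoint_left]
      intro t h1 h2
      exact absurd h1.2 (not_lt.2 h2.1.le)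
    rw [← setIntegral_union hd measurableSet_Ioo (hI1.mono_set (Ioo_subset_Ioo_right (by norm_num)))
      (hI1.mono_set (Ioo_subset_Ioo_left (by norm_num)))]
    apply setIntegral_mono_set hI1
    · filter_upwards with t
      exact hG0 t
    · apply HasSubset.Subset.eventuallyLE
      exact union_subset (Ioo_subset_Ioo_right (by norm_num)) (Ioo_subset_Ioo_left (by norm_num))
  have e6 : (∫ t in Ioo (1 / 2 : ℝ) 1, (197 + 4 * t) / 200 * (1 - G t)) + (∫ t in Ioo (1 / 2 : ℝ) 1, G t) =
      (∫ t in Ioo (1 / 2 : ℝ) 1, (197 + 4 * t) / 200) + ∫ t in Ioo (1 / 2 : ℝ) 1, G t * ((3 - 4 * t) / 200) := by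
    have i1 : IntegrableOn (fun t : ℝ => (197 + 4 * t) / 200 * (1 - G t)) (Ioo (1 / 2) 1) := by
      refine hbd _ _ 2 measurableSet_Ioo (by simp) (by fun_prop) fun t ht => ?_
      have h3 : 0 ≤ (197 + 4 * t) / 200 := by linarith [ht.1]
      have h4 : 0 ≤ 1 - G t := by linarith [hG1 t]
      rw [abs_mul, abs_of_nonneg h3, abs_of_nonneg h4]
      have h5 : (197 + 4 * t) / 200 ≤ 2 := by linarith [ht.2]
      have h6 : 1 - G t ≤ 1 := by linarith [hG0 t]
      calc (197 + 4 * t) / 200 * (1 - G t) ≤ 2 * 1 := mul_le_mul h5 h6 h4 (by norm_num)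
        _ = 2 := by norm_num
    have i2 : IntegrableOn G (Ioo (1 / 2) 1) := hI1.mono_set (Ioo_subset_Ioo_left (by norm_num))
    have i3 : IntegrableOn (fun t : ℝ => (197 + 4 * t) / 200) (Ioo (1 / 2) 1) := by
      refine hbd _ _ 2 measurableSet_Ioo (by simp) (by fun_prop) fun t ht => ?_
      rw [abs_le]
      constructor <;> linarith [ht.1, ht.2]
    have i4 : IntegrableOn (fun t : ℝ => G t * ((3 - 4 * t) / 200)) (Ioo (1 / 2) 1) := by
      refine hbd _ _ 1 measurableSet_Ioo (by simp) (by fun_prop) fun t ht => ?_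
      rw [abs_mul, abs_of_nonneg (hG0 t)]
      have h5 : |(3 - 4 * t) / 200| ≤ 1 := by
        rw [abs_le]
        constructor <;> linarith [ht.1, ht.2]
      calc G t * |(3 - 4 * t) / 200| ≤ 1 * 1 := mul_le_mul (hG1 t) h5 (abs_nonneg _) (by norm_num)
        _ = 1 := by norm_num
    rw [← integral_add i1 i2, ← integral_add i3 i4]
    apply integral_congr_ae
    filter_upwards with t
    ring
  have e7 : ∫ x, 1 / 200 * max 0 ((2 * f x - 1) * (1 - f x)) ∂μ = 1 / 200 * ∫ x, max 0 ((2 * f x - 1) * (1 - f x)) ∂μ :=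
    integral_const_mul _ _
  rw [← e7, e2, e1]
  linarith

end Pool.Agent.IR
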