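import Pool.Agent.helper52.IR.Spec
import Pool.Agent.helper93.ER.LSM
import Pool.Agent.helper54.RPQ.PIG

/-!
# Row ir:FLI (the set of low local entropy is flow invariant)
-/

set_option autoImplicit false

open scoped MatrixGroups ContDiff Topology UpperHalfPlane ComplexConjugate
open UpperHalfPlane MeasureTheory Filter Set

namespace Pool.Agent.IR

open Pool.Agent.RS
open Pool.Agent.EN (XG MG mkX mkM fl pr)
open Pool.Agent.ER (Low LowJ Bow)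

theorem FLI_sub (hXFL : EN.XFL_stmt) (Γ : Subgroup SL(2, ℝ)) (δ t : ℝ) (n k : ℕ) (hk : |t| ≤ k) (x : XG Γ) :
    Bow Γ δ (n + k) x ⊆ fl Γ t ⁻¹' Bow Γ δ n (fl Γ t x) := by
  obtain ⟨-, -, -, -, -, -, -, -, hfl, -⟩ := hXFL Γ
  rintro y ⟨g, h, rfl, rfl, hb⟩
  refine ⟨g * aM t, (aM t)⁻¹ * h * aM t, hfl t g, ?_, ?_⟩
  · rw [hfl t (g * h)]
    congr 1
    group
  · intro τ hτ i j
    have h1 : |t + τ| ≤ ((n + k : ℕ) : ℝ) := by
      refine (abs_add_le t τ).trans ?_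
      push_cast
      linarith
    have h2 := hb (t + τ) h1 i j
    have h3 : (aM τ)⁻¹ * ((aM t)⁻¹ * h * aM t) * aM τ = (aM (t + τ))⁻¹ * h * aM (t + τ) := by
      rw [RPQ.PIG_aadd]
      group
    rw [h3]
    exact h2

theorem FLI_meas (hXFL : EN.XFL_stmt) (Γ : Subgroup SL(2, ℝ)) (δ : ℝ) (n : ℕ) (x : XG Γ) : MeasurableSet (Bow Γ δ n x) := by
  have h1 := ER.LSM_openR hXFL Γ δ n
  have h2 : Bow Γ δ n x = (fun y => (x, y)) ⁻¹' {p : XG Γ × XG Γ | p.2 ∈ Bow Γ δ n p.1} := rfl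
  rw [h2]
  exact (h1.preimage (by fun_prop)).measurableSet

theorem FLI_proof (hXFL : EN.XFL_stmt) : FLI_stmt := by
  intro Γ μ s t x hΓ hμ hinv hx δ hδ ε hε
  have hflc : Continuous (fl Γ t) := by
    have h1 := (hXFL Γ).1.cont
    exact h1.comp (by fun_prop : Continuous fun x : XG Γ => ((t, x) : ℝ × XG Γ))
  have h0 := hx δ hδ (ε / 2) (by linarith)
  rw [Filter.frequently_atTop] at h0 ⊢
  intro a
  obtain ⟨k, hk⟩ : ∃ k : ℕ, k = ⌈|t|⌉₊ := ⟨_, rfl⟩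
  have hkt : |t| ≤ k := by rw [hk]; exact Nat.le_ceil _
  obtain ⟨m, hm, hmb⟩ := h0 (a + k + ⌈2 * |s + ε| * k / ε⌉₊)
  have hm1 : 2 * |s + ε| * k / ε ≤ m := by
    refine (Nat.le_ceil _).trans ?_
    have : ⌈2 * |s + ε| * k / ε⌉₊ ≤ m := by omega
    exact_mod_cast this
  obtain ⟨n, rfl⟩ : ∃ n, m = n + k := ⟨m - k, by omega⟩
  refine ⟨n, by omega, ?_⟩
  have h1 : μ.real (Bow Γ δ (n + k) x) ≤ μ.real (Bow Γ δ n (fl Γ t x)) := by
    have h2 : μ.real (Bow Γ δ n (fl Γ t x)) = μ.real (fl Γ t ⁻¹' Bow Γ δ n (fl Γ t x)) := by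
      have h3 : (μ.map (fl Γ t)).real (Bow Γ δ n (fl Γ t x)) = μ.real (fl Γ t ⁻¹' Bow Γ δ n (fl Γ t x)) := by
        rw [measureReal_def, measureReal_def, Measure.map_apply hflc.measurable (FLI_meas hXFL Γ δ n _)]
      rw [← h3, hinv t]
    rw [h2]
    exact measureReal_mono (FLI_sub hXFL Γ δ t n k hkt x)
  refine le_trans ?_ (hmb.trans h1)
  apply Real.exp_le_exp.2
  rw [div_le_iff₀ hε] at hm1
  have h5 : (s + ε) * k ≤ |s + ε| * k := mul_le_mul_of_nonneg_right (le_abs_self _) (Nat.cast_nonneg _)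
  push_cast at hm1 ⊢
  nlinarith

end Pool.Agent.IR
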